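import Pool.Agent.H5.LZ2

set_option autoImplicit false

namespace Pool.Agent.Results.MP_37e11d_lc.Poly

open Pool.Agent.H5.LZ

theorem result :
    (∃ c : ℕ, 1 ≤ c ∧ ∀ (α : Type) (S : List α) (i : ℕ), 1 ≤ i → i ≤ S.length →
      zs (S.drop (i - 1)) ≤ c * zs S ^ c) ∧
    ∀ (α : Type) (S T : List α), T <:+: S → zs T ≤ 12 * zs S ^ 2 + 27 * zs S + 10 := by
  refine ⟨⟨49, by norm_num, fun α S i h1 h2 => ?_⟩, fun α S T h => main S T h⟩
  have h3 := main S _ (List.drop_suffix (i - 1) S).isInfix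
  have h4 := zs_pos S (by omega)
  have h5 : zs S ^ 2 ≤ zs S ^ 49 := Nat.pow_le_pow_right h4 (by norm_num)
  nlinarith

end Pool.Agent.Results.MP_37e11d_lc.Poly
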